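import Pool.Agent.Helper774.SS.End1
open Finset

namespace Pool.Agent.Helper774.SS

section comb
variable {α : Type*} [DecidableEq α]

theorem sum_ge_of {f : α → ℕ} (E : Finset α) (t c : ℕ) (h : ∀ e ∈ E, t ≤ f e) (hc : c ≤ E.card) :
    t * c ≤ ∑ e ∈ E, f e := by
  calc t * c ≤ t * E.card := Nat.mul_le_mul_left _ hc
    _ = ∑ e ∈ E, t := by rw [sum_const, smul_eq_mul, mul_comm]
    _ ≤ _ := sum_le_sum h

theorem sum_le_of {f : α → ℕ} (E : Finset α) (t c : ℕ) (h : ∀ e ∈ E, f e ≤ t) (hc : E.card ≤ c) :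
    ∑ e ∈ E, f e ≤ t * c := by
  calc _ ≤ ∑ e ∈ E, t := sum_le_sum h
    _ = t * E.card := by rw [sum_const, smul_eq_mul, mul_comm]
    _ ≤ t * c := Nat.mul_le_mul_left _ hc

theorem end_mid {f : α → ℕ} (A P Q : Finset α) (p m w L : ℕ)
    (hPA : P ⊆ A) (hQA : Q ⊆ A) (hPQ : Disjoint P Q)
    (hinjP : Set.InjOn f P) (hinjQ : Set.InjOn f Q)
    (hrP : ∀ a ∈ P, 1 ≤ f a ∧ f a ≤ L) (hrQ : ∀ a ∈ Q, 1 ≤ f a ∧ f a ≤ L)
    (h2 : ∀ v, 1 ≤ v → (A.filter (fun a => f a = v)).card ≤ 2)
    (hp : 4 * p ≤ m * m + 2 * m + 8)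
    (hw : 20 * w ≤ m) (hw2 : m < 20 * w + 20)
    (hR : 99 * m ≤ 100 * (P.card + Q.card)) (hL : 200 * L ≤ 101 * m)
    (hf : ∀ a ∈ A, 2 * f a ≤ p) (hbig : 100 ≤ w) :
    ∀ x, w ≤ x → x + w ≤ ∑ a ∈ A, f a → Rep f A x := by
  have hPL : P.card ≤ L := by
    have h := card_le_card_of_injOn (s := P) (t := Icc 1 L) f (by
      intro a ha
      rw [mem_coe, mem_Icc]
      exact hrP a ha) hinjP
    rw [Nat.card_Icc] at h
    omega
  have hQL : Q.card ≤ L := by
    have h := card_le_card_of_injOn (s := Q) (t := Icc 1 L) f (by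
      intro a ha
      rw [mem_coe, mem_Icc]
      exact hrQ a ha) hinjQ
    rw [Nat.card_Icc] at h
    omega
  obtain ⟨μ, hμ⟩ : ∃ μ, μ + (P.card + Q.card) = 2 * L := ⟨2 * L - (P.card + Q.card), by omega⟩
  have hμ1 : 100 * μ ≤ 2 * m := by omega
  have hμ2 : 2 * μ + 3 ≤ w := by omega
  set R := P ∪ Q with hRdef
  have hRcard : R.card = P.card + Q.card := card_union_of_disjoint hPQ
  have hRA : R ⊆ A := union_subset hPA hQA
  have hrR : ∀ a ∈ R, 1 ≤ f a ∧ f a ≤ L := by
    intro a ha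
    rcases mem_union.mp ha with h | h
    · exact hrP a h
    · exact hrQ a h
  set Y0 := R.filter (fun a => f a ≤ 3 * w) with hY0
  set E1 := R.filter (fun a => 3 * w < f a ∧ f a ≤ 5 * w) with hE1
  set E2 := R.filter (fun a => 5 * w < f a) with hE2
  have hY0c : Y0.card ≤ 6 * w := by
    have := card_two (f := f) Y0 (Icc 1 (3 * w)) (by
      intro v hv
      rw [mem_Icc] at hv
      refine le_trans (card_le_card ?_) (h2 v hv.1)
      exact filter_subset_filter _ ((filter_subset _ _).trans hRA)) (by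
      intro a ha
      rw [hY0, mem_filter] at ha
      rw [mem_Icc]
      exact ⟨(hrR a ha.1).1, ha.2⟩)
    rw [Nat.card_Icc] at this
    omega
  have hE2c : E2.card ≤ 2 * (L - 5 * w) := by
    have := card_two (f := f) E2 (Ioc (5 * w) L) (by
      intro v hv
      rw [mem_Ioc] at hv
      refine le_trans (card_le_card ?_) (h2 v (by omega))
      exact filter_subset_filter _ ((filter_subset _ _).trans hRA)) (by
      intro a ha
      rw [hE2, mem_filter] at ha
      rw [mem_Ioc]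
      exact ⟨ha.2, (hrR a ha.1).2⟩)
    rw [Nat.card_Ioc] at this
    exact this
  have hYEc : (Y0 ∪ E1).card ≤ 10 * w := by
    have := card_two (f := f) (Y0 ∪ E1) (Icc 1 (5 * w)) (by
      intro v hv
      rw [mem_Icc] at hv
      refine le_trans (card_le_card ?_) (h2 v hv.1)
      exact filter_subset_filter _ ((union_subset (filter_subset _ _) (filter_subset _ _)).trans hRA)) (by
      intro a ha
      rw [hY0, hE1, mem_union, mem_filter, mem_filter] at ha
      rw [mem_Icc]
      rcases ha with ha | ha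
      · exact ⟨(hrR a ha.1).1, by omega⟩
      · exact ⟨(hrR a ha.1).1, by omega⟩)
    rw [Nat.card_Icc] at this
    omega
  have hd1 : Disjoint Y0 E1 := by
    rw [disjoint_left]
    intro a ha hb
    rw [hY0, mem_filter] at ha
    rw [hE1, mem_filter] at hb
    omega
  have hd2 : Disjoint (Y0 ∪ E1) E2 := by
    rw [disjoint_left]
    intro a ha hb
    rw [hY0, hE1, mem_union, mem_filter, mem_filter] at ha
    rw [hE2, mem_filter] at hb
    omega
  have hun : Y0 ∪ E1 ∪ E2 = R := by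
    ext a
    rw [hY0, hE1, hE2, mem_union, mem_union, mem_filter, mem_filter, mem_filter]
    constructor
    · rintro ((h | h) | h) <;> exact h.1
    · intro h
      rcases Nat.lt_or_ge (3 * w) (f a) with h1 | h1
      · rcases Nat.lt_or_ge (5 * w) (f a) with h3 | h3
        · exact Or.inr ⟨h, h3⟩
        · exact Or.inl (Or.inr ⟨h, h1, h3⟩)
      · exact Or.inl (Or.inl ⟨h, h1⟩)
  have hcards : (Y0 ∪ E1).card + E2.card = R.card := by
    rw [← hun, card_union_of_disjoint hd2]
  have hcards2 : Y0.card + E1.card = (Y0 ∪ E1).card := by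
    rw [card_union_of_disjoint hd1]
  have hE1c : 3 * w ≤ E1.card := by omega
  have hE2c' : 9 * w ≤ E2.card := by omega
  have hS1 : 3 * w * (3 * w) ≤ ∑ e ∈ E1, f e := by
    apply sum_ge_of E1 (3 * w) (3 * w) _ hE1c
    intro e he
    rw [hE1, mem_filter] at he
    omega
  have hE2c'' : R.card - 10 * w ≤ E2.card := by omega
  have hS2 : 5 * w * (R.card - 10 * w) ≤ ∑ e ∈ E2, f e := by
    apply sum_ge_of E2 (5 * w) _ _ hE2c''
    intro e he
    rw [hE2, mem_filter] at he
    omega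
  have hS0 : ∑ e ∈ Y0, f e ≤ 3 * w * (6 * w) := by
    apply sum_le_of Y0 _ _ _ hY0c
    intro e he
    rw [hY0, mem_filter] at he
    exact he.2
  -- base interval
  have hbase : ∀ x, w ≤ x → x ≤ 6 * w → Rep f Y0 x := by
    have hb1 : ∀ x, w ≤ x → x ≤ 3 * w → Rep f (P.filter (fun a => f a ≤ 3 * w)) x := by
      intro x hx1 hx2
      refine (rep_pair P L μ hinjP hrP (by omega) x (by omega) (by omega)).mono ?_
      intro a ha
      rw [mem_filter] at ha ⊢
      exact ⟨ha.1, by omega⟩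
    have hb2 : ∀ x, w ≤ x → x ≤ 3 * w → Rep f (Q.filter (fun a => f a ≤ 3 * w)) x := by
      intro x hx1 hx2
      refine (rep_pair Q L μ hinjQ hrQ (by omega) x (by omega) (by omega)).mono ?_
      intro a ha
      rw [mem_filter] at ha ⊢
      exact ⟨ha.1, by omega⟩
    intro x hx1 hx2
    rcases Nat.lt_or_ge (3 * w) x with h | h
    · have h3 := Rep.add (disjoint_filter_filter hPQ) (hb1 (x / 2) (by omega) (by omega))
        (hb2 (x - x / 2) (by omega) (by omega))
      have e1 : x / 2 + (x - x / 2) = x := by omega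
      rw [e1, ← filter_union] at h3
      exact h3
    · refine (hb1 x hx1 h).mono ?_
      rw [hY0, hRdef, filter_union]
      exact subset_union_left
  have hw2' : w * w ≥ 100 * w := Nat.mul_le_mul_right _ hbig
  have hstep1 := rep_ext E1 Y0 w (6 * w) hd1 (by
    intro e he
    rw [hE1, mem_filter] at he
    omega) hbase
  have hsq : 3 * w * (3 * w) = 9 * (w * w) := by ring
  have hstep2 := rep_ext E2 (Y0 ∪ E1) w (6 * w + ∑ e ∈ E1, f e) hd2 (by
    intro e he
    rw [hE2, mem_filter] at he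
    have h3 := (hrR e he.1).2
    omega) hstep1
  rw [hun] at hstep2
  have hRc2 : 99 * m ≤ 100 * R.card := by rw [hRcard]; exact hR
  have hS2' : 5 * w * (R.card - 10 * w) ≥ 49 * (w * w) := by
    have h3 : 98 * w ≤ 10 * (R.card - 10 * w) := by omega
    have h4 := Nat.mul_le_mul_left w h3
    have e1 : w * (98 * w) = 98 * (w * w) := by ring
    have e2 : 5 * w * (R.card - 10 * w) = 5 * (w * (R.card - 10 * w)) := by ring
    have e3 : w * (10 * (R.card - 10 * w)) = 10 * (w * (R.card - 10 * w)) := by ring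
    rw [e1, e3] at h4
    rw [e2]
    omega
  have hp2 : p ≤ 2 * (58 * (w * w)) := by
    have h3 : m * m ≤ (20 * w + 19) * (20 * w + 19) := Nat.mul_le_mul (by omega) (by omega)
    have e1 : (20 * w + 19) * (20 * w + 19) = 400 * (w * w) + 760 * w + 361 := by ring
    omega
  have hd3 : Disjoint R (A \ R) := disjoint_sdiff
  have hstep3 := rep_ext (A \ R) R w (6 * w + ∑ e ∈ E1, f e + ∑ e ∈ E2, f e) hd3 (by
    intro e he
    have h3 := hf e (mem_sdiff.mp he).1
    omega) hstep2
  have hAR : R ∪ (A \ R) = A := union_sdiff_of_subset hRA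
  rw [hAR] at hstep3
  have hNR : ∑ e ∈ A \ R, f e + ∑ e ∈ R, f e = ∑ e ∈ A, f e := sum_sdiff hRA
  have hNR2 : ∑ e ∈ R, f e = ∑ e ∈ Y0, f e + ∑ e ∈ E1, f e + ∑ e ∈ E2, f e := by
    rw [← hun, sum_union hd2, sum_union hd1]
  have hsq2 : 3 * w * (6 * w) = 18 * (w * w) := by ring
  intro x hx1 hx2
  rcases Nat.lt_or_ge (6 * w + ∑ e ∈ E1, f e + ∑ e ∈ E2, f e + ∑ e ∈ A \ R, f e) x with h | h
  · have h3 := hstep3 (∑ e ∈ A, f e - x) (by omega) (by omega)
    have h4 := h3.compl
    have e1 : ∑ a ∈ A, f a - (∑ e ∈ A, f e - x) = x := by omega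
    rwa [e1] at h4
  · exact hstep3 x hx1 h

theorem end_cover {f : α → ℕ} (A P Q : Finset α) (p m w L : ℕ)
    (hPA : P ⊆ A) (hQA : Q ⊆ A) (hPQ : Disjoint P Q)
    (hinjP : Set.InjOn f P) (hinjQ : Set.InjOn f Q)
    (hrP : ∀ a ∈ P, 1 ≤ f a ∧ f a ≤ L) (hrQ : ∀ a ∈ Q, 1 ≤ f a ∧ f a ≤ L)
    (h2 : ∀ v, 1 ≤ v → (A.filter (fun a => f a = v)).card ≤ 2)
    (h0 : (A.filter (fun a => f a = 0)).card ≤ 1)
    (hm : A.card = m)
    (hp : 4 * p ≤ m * m + 2 * m + 8)
    (hw : 20 * w ≤ m) (hw2 : m < 20 * w + 20)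
    (hR : 99 * m ≤ 100 * (P.card + Q.card)) (hL : 200 * L ≤ 101 * m)
    (hf : ∀ a ∈ A, 2 * f a ≤ p) (hbig : 100 ≤ w)
    (hpw : w ≤ p) (hN : p ≤ ∑ a ∈ A, f a + 1) (y : ℕ) (hy : y < p) :
    ∃ x, Rep f A x ∧ (x = y ∨ x = y + p) := by
  have hmid := end_mid A P Q p m w L hPA hQA hPQ hinjP hinjQ hrP hrQ h2 hp hw hw2 hR hL hf hbig
  by_cases hall : ∀ j, j < w → Rep f A j
  · refine ⟨y, ?_, Or.inl rfl⟩
    rcases Nat.lt_or_ge y w with h | h
    · exact hall y h
    · rcases Nat.lt_or_ge (∑ a ∈ A, f a) (y + w) with h' | h'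
      · have h3 := (hall (∑ a ∈ A, f a - y) (by omega)).compl
        have e1 : ∑ a ∈ A, f a - (∑ a ∈ A, f a - y) = y := by omega
        rwa [e1] at h3
      · exact hmid y h h'
  · push Not at hall
    obtain ⟨j, hj1, hj2⟩ := hall
    have hj0 : 1 ≤ j := by
      by_contra h
      have : j = 0 := by omega
      rw [this] at hj2
      exact hj2 (rep_zero f A)
    have hjA : ∀ a ∈ A, f a ≠ j := by
      intro a ha h
      apply hj2
      exact ⟨{a}, by simpa using ha, by simpa using h⟩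
    set A' := A.filter (fun a => ¬ (f a = 0)) with hA'
    have hA'c : m ≤ A'.card + 1 := by
      have h7 := card_filter_add_card_filter_not (s := A) (fun a => f a = 0)
      rw [hm] at h7
      have h8 : (filter (fun a => ¬ f a = 0) A).card = A'.card := rfl
      rw [h8] at h7
      omega
    have hA's : ∑ a ∈ A', f a = ∑ a ∈ A, f a := by
      apply sum_subset (filter_subset _ _)
      intro a ha hb
      by_contra h
      exact hb (mem_filter.mpr ⟨ha, h⟩)
    have hlow := total_lower (f := f) A' (by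
      intro a ha
      rw [hA', mem_filter] at ha
      omega) (by
      intro v hv
      refine le_trans (card_le_card ?_) (h2 v hv)
      exact filter_subset_filter _ (filter_subset _ _)) (A'.card / 2 + 1) j hj0 (by
      intro a ha
      exact hjA a (mem_filter.mp ha).1) (by omega) (by omega)
    rw [hA's] at hlow
    obtain ⟨n, hn⟩ : ∃ n, n = A'.card := ⟨_, rfl⟩
    rw [← hn] at hlow hA'c
    have h5 : n * n + 2 * n ≤ 4 * ((n / 2 + 1) * (n + 1 - (n / 2 + 1))) := by
      obtain ⟨k, hk | hk⟩ : ∃ k, n = 2 * k ∨ n = 2 * k + 1 := ⟨n / 2, by omega⟩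
      · have e1 : n / 2 = k := by omega
        have e2 : n + 1 - (k + 1) = k := by omega
        rw [e1, e2, hk]
        apply le_of_eq
        ring
      · have e1 : n / 2 = k := by omega
        have e2 : n + 1 - (k + 1) = k + 1 := by omega
        rw [e1, e2, hk]
        nlinarith
    have h6 : m * m ≤ (n + 1) * (n + 1) := Nat.mul_le_mul hA'c hA'c
    have e3 : (n + 1) * (n + 1) = n * n + 2 * n + 1 := by ring
    have e4 : n / 2 + 1 - j + j = n / 2 + 1 := by omega
    rw [e3] at h6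
    have hN2 : p + 2 * w ≤ ∑ a ∈ A, f a + 1 := by omega
    rcases Nat.lt_or_ge y w with h | h
    · exact ⟨y + p, hmid _ (by omega) (by omega), Or.inr rfl⟩
    · exact ⟨y, hmid _ h (by omega), Or.inl rfl⟩

end comb

end Pool.Agent.Helper774.SS
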