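import Pool.Agent.Helper774.SS.End3
open Finset

namespace Pool.Agent.Helper774.SS

/-- structure statement: near-extremal sets are concentrated after a dilation -/
def Structure (eps : ℝ) : Prop :=
  ∃ p₀ : ℕ, ∀ p : ℕ, p.Prime → p₀ < p → ∀ A : Finset (ZMod p),
    A.card = ⌊2 * Real.sqrt ((p : ℝ) - 2)⌋₊ →
    (∃ x : ZMod p, ∀ B : Finset (ZMod p), B ⊆ A → B.sum id ≠ x) →
    ∃ (b : ZMod p) (R : Finset (ZMod p)) (L : ℕ), b ≠ 0 ∧ R ⊆ A ∧ (0 : ZMod p) ∉ R ∧
      (1 - eps) * (A.card : ℝ) ≤ (R.card : ℝ) ∧ 2 * (L : ℝ) ≤ (1 + eps) * (A.card : ℝ) ∧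
      ∀ a ∈ R, |ZMod.valMinAbs (b * a)| ≤ (L : ℤ)

/-- zero is a nonempty subset sum -/
def ZeroSum : Prop :=
  ∃ p₀ : ℕ, ∀ p : ℕ, p.Prime → p₀ < p → ∀ A : Finset (ZMod p),
    A.card = ⌊2 * Real.sqrt ((p : ℝ) - 2)⌋₊ →
    ∃ B : Finset (ZMod p), B ⊆ A ∧ B.Nonempty ∧ B.sum id = 0

theorem card_numerics (p m : ℕ) (hp2 : 2 ≤ p) (hm : m = ⌊2 * Real.sqrt ((p : ℝ) - 2)⌋₊) :
    4 * p ≤ m * m + 2 * m + 8 ∧ m * m ≤ 4 * (p - 2) := by
  have hp2' : (2 : ℝ) ≤ (p : ℝ) := by exact_mod_cast hp2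
  have h0 : (0 : ℝ) ≤ (p : ℝ) - 2 := by linarith
  have hs := Real.sq_sqrt h0
  have hs0 := Real.sqrt_nonneg ((p : ℝ) - 2)
  have h1 : (m : ℝ) ≤ 2 * Real.sqrt ((p : ℝ) - 2) := by
    rw [hm]
    exact Nat.floor_le (by positivity)
  have h2 : 2 * Real.sqrt ((p : ℝ) - 2) < (m : ℝ) + 1 := by
    rw [hm]
    exact Nat.lt_floor_add_one _
  constructor
  · have h3 : (4 : ℝ) * ((p : ℝ) - 2) < ((m : ℝ) + 1) * ((m : ℝ) + 1) := by nlinarith
    have h4 : (4 : ℝ) * (p : ℝ) < ((m : ℝ) + 1) * ((m : ℝ) + 1) + 8 := by linarith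
    have h5 : 4 * p < (m + 1) * (m + 1) + 8 := by exact_mod_cast h4
    have e1 : (m + 1) * (m + 1) = m * m + 2 * m + 1 := by ring
    omega
  · have h3 : ((m : ℝ)) * (m : ℝ) ≤ 4 * ((p : ℝ) - 2) := by nlinarith [(Nat.cast_nonneg m : (0:ℝ) ≤ m)]
    have h4 : ((m : ℝ)) * (m : ℝ) + 8 ≤ 4 * (p : ℝ) := by linarith
    have h5 : m * m + 8 ≤ 4 * p := by exact_mod_cast h4
    omega

/-- the easy direction -/
theorem easy_dir {p : ℕ} [Fact p.Prime] (A : Finset (ZMod p))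
    (h : ∑ y ∈ A, |ZMod.valMinAbs y| ≤ (p : ℤ) - 2) :
    ∃ x : ZMod p, ∀ B : Finset (ZMod p), B ⊆ A → B.sum id ≠ x := by
  refine ⟨((1 + ∑ y ∈ A, max (ZMod.valMinAbs y) 0 : ℤ) : ZMod p), ?_⟩
  intro B hB heq
  have h1 : B.sum id = ((∑ y ∈ B, ZMod.valMinAbs y : ℤ) : ZMod p) := by
    rw [Int.cast_sum]
    apply sum_congr rfl
    intro y _
    rw [ZMod.coe_valMinAbs]
    rfl
  rw [h1, ← sub_eq_zero, ← Int.cast_sub, ZMod.intCast_zmod_eq_zero_iff_dvd] at heq
  have h2 : ∑ y ∈ B, ZMod.valMinAbs y ≤ ∑ y ∈ A, max (ZMod.valMinAbs y) 0 := by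
    calc ∑ y ∈ B, ZMod.valMinAbs y ≤ ∑ y ∈ B, max (ZMod.valMinAbs y) 0 :=
          sum_le_sum (fun y _ => le_max_left _ _)
      _ ≤ _ := sum_le_sum_of_subset_of_nonneg hB (fun y _ _ => le_max_right _ _)
  have h3 : ∑ y ∈ A, max (ZMod.valMinAbs y) 0 - ∑ y ∈ B, ZMod.valMinAbs y
      ≤ ∑ y ∈ A, |ZMod.valMinAbs y| := by
    rw [← sum_sdiff hB, ← sum_sdiff hB (f := fun y => |ZMod.valMinAbs y|)]
    have h4 : ∑ y ∈ A \ B, max (ZMod.valMinAbs y) 0 ≤ ∑ y ∈ A \ B, |ZMod.valMinAbs y| :=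
      sum_le_sum (fun y _ => max_le (le_abs_self _) (abs_nonneg _))
    have h5 : ∑ y ∈ B, max (ZMod.valMinAbs y) 0
        ≤ ∑ y ∈ B, |ZMod.valMinAbs y| + ∑ y ∈ B, ZMod.valMinAbs y := by
      rw [← sum_add_distrib]
      apply sum_le_sum
      intro y _
      rcases le_total 0 (ZMod.valMinAbs y) with h | h
      · rw [max_eq_left h, abs_of_nonneg h]; linarith
      · rw [max_eq_right h, abs_of_nonpos h]; linarith
    linarith
  obtain ⟨k, hk⟩ := heq
  have hp : (0 : ℤ) < p := by exact_mod_cast (Fact.out : p.Prime).pos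
  have hk1 : -(p : ℤ) < p * k := by linarith
  have hk2 : (p : ℤ) * k < 0 := by linarith
  have hk3 : k < 0 := by
    by_contra h'
    push Not at h'
    have : 0 ≤ (p : ℤ) * k := by positivity
    linarith
  have hk4 : -1 < k := by
    by_contra h'
    push Not at h'
    have : (p : ℤ) * k ≤ p * (-1) := mul_le_mul_of_nonneg_left h' hp.le
    linarith
  omega

theorem sums_dilate {p : ℕ} [Fact p.Prime] (b : ZMod p) (hb : b ≠ 0) (A B : Finset (ZMod p))
    (hB : B ⊆ A) : ∃ B' ⊆ A.image (fun a => b * a), B'.sum id = b * B.sum id := by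
  refine ⟨B.image (fun a => b * a), image_subset_image hB, ?_⟩
  rw [sum_image (by
    intro x _ y _ h
    exact mul_left_cancel₀ hb h), mul_sum]
  rfl

theorem sums_undilate {p : ℕ} [Fact p.Prime] (b : ZMod p) (hb : b ≠ 0) (A B' : Finset (ZMod p))
    (hB : B' ⊆ A.image (fun a => b * a)) : ∃ B ⊆ A, B'.sum id = b * B.sum id := by
  rw [subset_image_iff] at hB
  obtain ⟨B, hBA, hB⟩ := hB
  refine ⟨B, hBA, ?_⟩
  rw [← hB, sum_image (by
    intro x _ y _ h
    exact mul_left_cancel₀ hb h), mul_sum]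
  rfl

theorem assemble (hS : Structure (1 / 100)) (hZ : ZeroSum) :
    ∃ p₀ : ℕ, ∀ p : ℕ, p.Prime → p₀ < p →
      ∀ A : Finset (ZMod p),
        A.card = ⌊2 * Real.sqrt ((p : ℝ) - 2)⌋₊ →
        ((∃ x : ZMod p, ∀ B : Finset (ZMod p), B ⊆ A → B.Nonempty → B.sum id ≠ x) ↔
          ∃ b : ZMod p, b ≠ 0 ∧
            ∑ y ∈ A.image (fun a => b * a), |(ZMod.valMinAbs y)| ≤ (p : ℤ) - 2) := by
  obtain ⟨p₁, hS⟩ := hS
  obtain ⟨p₂, hZ⟩ := hZ
  refine ⟨max (max p₁ p₂) 2000000, ?_⟩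
  intro p hp hp0 A hA
  have hp1 : p₁ < p := by omega
  have hp2 : p₂ < p := by omega
  have hp3 : 2000000 < p := by omega
  have : Fact p.Prime := ⟨hp⟩
  constructor
  · rintro ⟨x, hx⟩
    obtain ⟨B₀, hB₀, hB₀n, hB₀s⟩ := hZ p hp hp2 A hA
    have hx' : ∀ B : Finset (ZMod p), B ⊆ A → B.sum id ≠ x := by
      intro B hB
      rcases B.eq_empty_or_nonempty with h | h
      · rw [h, sum_empty, ← hB₀s]
        exact hx B₀ hB₀ hB₀n
      · exact hx B hB h
    obtain ⟨b, R, L, hb, hRA, h0R, hRc, hL, hRL⟩ := hS p hp hp1 A hA ⟨x, hx'⟩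
    refine ⟨b, hb, ?_⟩
    by_contra hcon
    push Not at hcon
    obtain ⟨hn1, hn2⟩ := card_numerics p A.card (by omega) hA
    have hinj : Function.Injective (fun a : ZMod p => b * a) := fun x y h => mul_left_cancel₀ hb h
    obtain ⟨B', hB', hB's⟩ := endgame_zmod (p := p) A.card (A.card / 20) L
      (A.image (fun a => b * a)) (R.image (fun a => b * a)) (image_subset_image hRA)
      (by
        intro h
        rw [mem_image] at h
        obtain ⟨a, ha, h⟩ := h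
        rcases mul_eq_zero.mp h with h | h
        · exact hb h
        · exact h0R (h ▸ ha))
      (by
        intro y hy
        rw [mem_image] at hy
        obtain ⟨a, ha, rfl⟩ := hy
        exact hRL a ha)
      (card_image_of_injective _ hinj)
      hn1 (by omega) (by omega)
      (by
        rw [card_image_of_injective _ hinj]
        have h1 : 99 * (A.card : ℝ) ≤ 100 * (R.card : ℝ) := by linarith
        exact_mod_cast h1)
      (by
        have h1 : 200 * (L : ℝ) ≤ 101 * (A.card : ℝ) := by linarith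
        exact_mod_cast h1)
      (by
        have h1 : 2000 ≤ A.card := by
          by_contra h
          push Not at h
          have h2 : A.card * A.card ≤ 2000 * 2000 := Nat.mul_le_mul h.le h.le
          omega
        omega)
      (by
        have h1 : A.card / 20 ≤ A.card := Nat.div_le_self _ _
        have h2 : A.card ≤ p := by
          have := card_le_univ A
          rwa [ZMod.card] at this
        omega)
      (by omega) (b * x)
    obtain ⟨B, hBA, hBs⟩ := sums_undilate b hb A B' hB'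
    rw [hB's] at hBs
    exact hx' B hBA (mul_left_cancel₀ hb hBs).symm
  · rintro ⟨b, hb, h⟩
    obtain ⟨x, hx⟩ := easy_dir _ h
    refine ⟨b⁻¹ * x, ?_⟩
    intro B hB _ heq
    obtain ⟨B', hB', hB's⟩ := sums_dilate b hb A B hB
    apply hx B' hB'
    rw [hB's, heq, ← mul_assoc, mul_inv_cancel₀ hb, one_mul]

end Pool.Agent.Helper774.SS
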