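import Mathlib
open Finset
open scoped Pointwise

namespace Pool.Agent.Helper774.SS

variable {p : ℕ} [Fact p.Prime]

/-- translate of a finite set -/
def tr (x : ZMod p) (B : Finset (ZMod p)) : Finset (ZMod p) := B.image (fun b => x + b)

theorem mem_tr {x y : ZMod p} {B : Finset (ZMod p)} : y ∈ tr x B ↔ y - x ∈ B := by
  unfold tr
  rw [mem_image]
  constructor
  · rintro ⟨b, hb, rfl⟩
    simpa using hb
  · intro h
    exact ⟨y - x, h, by ring⟩

theorem card_tr (x : ZMod p) (B : Finset (ZMod p)) : (tr x B).card = B.card := by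
  apply card_image_of_injective
  intro a b h
  simpa using h

theorem tr_sdiff (x : ZMod p) (B C : Finset (ZMod p)) : tr x (B \ C) = tr x B \ tr x C := by
  ext y
  simp only [mem_sdiff, mem_tr]

theorem tr_add (x y : ZMod p) (B : Finset (ZMod p)) : tr (x + y) B = tr x (tr y B) := by
  ext z
  rw [mem_tr, mem_tr, mem_tr]
  have : z - (x + y) = z - x - y := by ring
  rw [this]

theorem tr_compl (x : ZMod p) (B : Finset (ZMod p)) : tr x Bᶜ = (tr x B)ᶜ := by
  ext y
  simp only [mem_compl, mem_tr]

/-- the number of elements of `x + B` outside `B` -/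
def lam (B : Finset (ZMod p)) (x : ZMod p) : ℕ := (tr x B \ B).card

theorem lam_add_inter (B : Finset (ZMod p)) (x : ZMod p) :
    lam B x + (tr x B ∩ B).card = B.card := by
  unfold lam
  rw [card_sdiff_add_card_inter, card_tr]

theorem lam_le (B : Finset (ZMod p)) (x : ZMod p) : lam B x ≤ B.card := by
  have := lam_add_inter B x
  omega

theorem lam_zero (B : Finset (ZMod p)) : lam B 0 = 0 := by
  unfold lam
  rw [card_eq_zero, sdiff_eq_empty_iff_subset]
  intro y hy
  rw [mem_tr] at hy
  simpa using hy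

theorem lam_add (B : Finset (ZMod p)) (x y : ZMod p) : lam B (x + y) ≤ lam B x + lam B y := by
  unfold lam
  have h1 : tr (x + y) B \ B ⊆ (tr x B \ B) ∪ tr x (tr y B \ B) := by
    intro z hz
    rw [mem_sdiff, mem_tr] at hz
    rw [mem_union, mem_sdiff, mem_tr, mem_tr, mem_sdiff, mem_tr]
    by_cases h : z - x ∈ B
    · exact Or.inl ⟨h, hz.2⟩
    · right
      refine ⟨?_, h⟩
      have : z - x - y = z - (x + y) := by ring
      rw [this]
      exact hz.1
  calc (tr (x + y) B \ B).card ≤ ((tr x B \ B) ∪ tr x (tr y B \ B)).card := card_le_card h1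
    _ ≤ (tr x B \ B).card + (tr x (tr y B \ B)).card := card_union_le _ _
    _ = _ := by rw [card_tr]

theorem lam_neg (B : Finset (ZMod p)) (x : ZMod p) : lam B (-x) = lam B x := by
  have h1 : (tr (-x) B ∩ B).card = (tr x B ∩ B).card := by
    rw [← card_tr x (tr (-x) B ∩ B)]
    congr 1
    ext y
    simp only [mem_tr, mem_inter]
    have : y - x - -x = y := by ring
    rw [this, and_comm]
  have h2 := lam_add_inter B x
  have h3 := lam_add_inter B (-x)
  omega

theorem lam_compl (B : Finset (ZMod p)) (x : ZMod p) : lam Bᶜ x = lam B x := by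
  rw [← lam_neg B x]
  unfold lam
  rw [tr_compl, ← card_tr (-x) ((tr x B)ᶜ \ Bᶜ)]
  congr 1
  ext y
  simp only [mem_tr, mem_sdiff, mem_compl]
  have e1 : y - -x - x = y := by ring
  have e2 : y - -x = y + x := by ring
  rw [e1, e2, not_not, and_comm]

theorem sum_inter (B : Finset (ZMod p)) :
    ∑ x : ZMod p, (tr x B ∩ B).card = B.card * B.card := by
  have h1 : ∀ x : ZMod p, (tr x B ∩ B).card = ∑ y ∈ B, if y - x ∈ B then 1 else 0 := by
    intro x
    rw [← card_filter]
    congr 1
    ext y
    rw [mem_inter, mem_tr, mem_filter, and_comm]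
  simp only [h1]
  rw [sum_comm]
  have h2 : ∀ y ∈ B, ∑ x : ZMod p, (if y - x ∈ B then 1 else 0) = B.card := by
    intro y _
    rw [← card_filter]
    rw [← card_image_of_injective B (f := fun b => y - b) (by
      intro a b h
      simpa using h)]
    congr 1
    ext x
    simp only [mem_filter, mem_univ, true_and, mem_image]
    constructor
    · intro h
      exact ⟨y - x, h, by ring⟩
    · rintro ⟨b, hb, rfl⟩
      have : y - (y - b) = b := by ring
      rw [this]; exact hb
  rw [sum_congr rfl h2, sum_const, smul_eq_mul]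

/-- iterated sumset -/
def it (X : Finset (ZMod p)) : ℕ → Finset (ZMod p)
  | 0 => {0}
  | k + 1 => it X k + X

theorem it_mono (X : Finset (ZMod p)) (h0 : 0 ∈ X) (k : ℕ) : it X k ⊆ it X (k + 1) := by
  intro x hx
  change x ∈ it X k + X
  rw [mem_add]
  exact ⟨x, hx, 0, h0, by ring⟩

theorem it_card (X : Finset (ZMod p)) (h0 : 0 ∈ X) (i : ℕ) (hX : 2 * i + 1 ≤ X.card) (k : ℕ) :
    min p (2 * i * k + 1) ≤ (it X k).card ∧ (it X k).Nonempty := by
  induction k with
  | zero =>
    refine ⟨?_, by simp [it]⟩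
    simp [it]
  | succ k ih =>
    obtain ⟨h1, h2⟩ := ih
    have hXne : X.Nonempty := ⟨0, h0⟩
    refine ⟨?_, h2.add hXne⟩
    have hcd := ZMod.cauchy_davenport (Fact.out : p.Prime) h2 hXne
    refine le_trans ?_ hcd
    have hXc : 1 ≤ X.card := by omega
    have e : 2 * i * (k + 1) = 2 * i * k + 2 * i := by ring
    rw [e]
    have hp : 1 ≤ p := (Fact.out : p.Prime).one_lt.le
    generalize 2 * i * k = a at h1 ⊢
    rcases le_total p (a + 1) with h | h
    · rw [min_eq_left h] at h1
      rw [min_eq_left (show p ≤ a + 2 * i + 1 by omega)]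
      apply le_min le_rfl
      omega
    · rw [min_eq_right h] at h1
      apply le_min (min_le_left _ _)
      refine (min_le_right _ _).trans ?_
      omega

theorem it_lam (B X : Finset (ZMod p)) (r : ℕ) (hr : ∀ x ∈ X, lam B x ≤ r) (k : ℕ) :
    ∀ x ∈ it X k, lam B x ≤ k * r := by
  induction k with
  | zero =>
    intro x hx
    simp only [it, mem_singleton] at hx
    rw [hx, lam_zero]
    omega
  | succ k ih =>
    intro x hx
    change x ∈ it X k + X at hx
    rw [mem_add] at hx
    obtain ⟨y, hy, z, hz, rfl⟩ := hx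
    calc lam B (y + z) ≤ lam B y + lam B z := lam_add B y z
      _ ≤ k * r + r := add_le_add (ih y hy) (hr z hz)
      _ = (k + 1) * r := by ring

/-- the layered lower bound -/
theorem layered (B X : Finset (ZMod p)) (h0 : 0 ∈ X) (r : ℕ) (hr : ∀ x ∈ X, lam B x ≤ r)
    (k : ℕ) :
    (∑ j ∈ range k, (r : ℤ) * ((it X j).card : ℤ)) + ((B.card : ℤ) - r * k) * ((it X k).card : ℤ)
      ≤ ∑ x ∈ it X k, ((B.card : ℤ) - (lam B x : ℤ)) := by
  induction k with
  | zero =>
    simp [it, lam_zero]
  | succ k ih =>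
    have hsub := it_mono X h0 k
    rw [← sum_sdiff hsub, sum_range_succ]
    have h1 : ∑ x ∈ it X (k + 1) \ it X k, ((B.card : ℤ) - (lam B x : ℤ))
        ≥ ∑ x ∈ it X (k + 1) \ it X k, ((B.card : ℤ) - r * (k + 1)) := by
      apply sum_le_sum
      intro x hx
      have h2 := it_lam B X r hr (k + 1) x (mem_sdiff.mp hx).1
      have h3 : (lam B x : ℤ) ≤ ((k + 1 : ℕ) : ℤ) * (r : ℤ) := by exact_mod_cast h2
      push_cast at h3
      linarith
    rw [sum_const, nsmul_eq_mul] at h1
    have h4 : ((it X (k + 1) \ it X k).card : ℤ)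
        = ((it X (k + 1)).card : ℤ) - ((it X k).card : ℤ) := by
      rw [card_sdiff_of_subset hsub]
      have := card_le_card hsub
      push_cast [Nat.cast_sub this]
      ring
    rw [h4] at h1
    push_cast
    push_cast at ih h1
    nlinarith

theorem growth_small (B X : Finset (ZMod p)) (h2 : 2 * B.card < p) (h0 : 0 ∈ X) (i r : ℕ)
    (hi : 1 ≤ i) (hX : 2 * i + 1 ≤ X.card) (hr : ∀ x ∈ X, lam B x ≤ r) :
    i * (B.card / i - 1) ≤ r * (B.card / i) := by
  set b := B.card with hb
  set J := b / i with hJ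
  have hJi : i * J ≤ b := Nat.mul_div_le b i
  have hJi2 : b < i * J + i := by
    have := Nat.lt_mul_div_succ b (show 0 < i by omega)
    rw [← hJ] at this
    calc b < i * (J + 1) := this
      _ = i * J + i := by ring
  rcases Nat.eq_zero_or_pos J with h | hJpos
  · rw [h]; simp
  rcases lt_or_ge b (r * J) with hcase | hcase
  · calc i * (J - 1) ≤ i * J := Nat.mul_le_mul_left _ (Nat.sub_le _ _)
      _ ≤ r * J := by omega
  -- main inequality
  have hlay := layered B X h0 r hr J
  have hup : ∑ x ∈ it X J, ((b : ℤ) - (lam B x : ℤ)) ≤ (b : ℤ) * b := by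
    have h3 : ∀ x : ZMod p, (b : ℤ) - (lam B x : ℤ) = ((tr x B ∩ B).card : ℤ) := by
      intro x
      have := lam_add_inter B x
      have h4 : (lam B x : ℤ) + ((tr x B ∩ B).card : ℤ) = (b : ℤ) := by exact_mod_cast this
      linarith
    calc ∑ x ∈ it X J, ((b : ℤ) - (lam B x : ℤ)) = ∑ x ∈ it X J, ((tr x B ∩ B).card : ℤ) :=
          sum_congr rfl (fun x _ => h3 x)
      _ ≤ ∑ x : ZMod p, ((tr x B ∩ B).card : ℤ) := by
          apply sum_le_sum_of_subset_of_nonneg (subset_univ _)
          intro x _ _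
          positivity
      _ = (b : ℤ) * b := by exact_mod_cast sum_inter B
  have hcard : ∀ j, j ≤ J → 2 * i * j + 1 ≤ (it X j).card := by
    intro j hj
    have h3 := (it_card X h0 i hX j).1
    have h4 : 2 * i * j ≤ 2 * b := by
      calc 2 * i * j = 2 * (i * j) := by ring
        _ ≤ 2 * (i * J) := by
          apply Nat.mul_le_mul_left
          exact Nat.mul_le_mul_left _ hj
        _ ≤ 2 * b := by omega
    rw [min_eq_right (by omega)] at h3
    exact h3
  have hrJ : (0 : ℤ) ≤ (b : ℤ) - r * J := by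
    have : ((r * J : ℕ) : ℤ) ≤ (b : ℤ) := by exact_mod_cast hcase
    push_cast at this
    linarith
  have hlow : (∑ j ∈ range J, (r : ℤ) * ((2 * i * j + 1 : ℕ) : ℤ))
      + ((b : ℤ) - r * J) * ((2 * i * J + 1 : ℕ) : ℤ) ≤ (b : ℤ) * b := by
    refine le_trans ?_ (hlay.trans hup)
    apply add_le_add
    · apply sum_le_sum
      intro j hj
      apply mul_le_mul_of_nonneg_left _ (by positivity)
      exact_mod_cast hcard j (mem_range.mp hj).le
    · apply mul_le_mul_of_nonneg_left _ hrJ
      exact_mod_cast hcard J le_rfl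
  have hsum : ∀ n : ℕ, ∑ j ∈ range n, (r : ℤ) * ((2 * i * j + 1 : ℕ) : ℤ)
      = r * (i * n * (n - 1) + n) := by
    intro n
    induction n with
    | zero => simp
    | succ n ih =>
      rw [sum_range_succ, ih]
      push_cast
      ring
  rw [hsum] at hlow
  -- conclude
  have hs1 : (i : ℤ) * J ≤ b := by exact_mod_cast hJi
  have hs2 : (b : ℤ) < i * J + i := by exact_mod_cast hJi2
  have hi' : (1 : ℤ) ≤ i := by exact_mod_cast hi
  have hJ' : (1 : ℤ) ≤ J := by exact_mod_cast hJpos
  have hr' : (0 : ℤ) ≤ r := by positivity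
  push_cast at hlow
  have key : (i : ℤ) * (J + 1) * (i * (J - 1)) ≤ (i : ℤ) * (J + 1) * (r * J) := by
    set s : ℤ := (b : ℤ) - i * J with hs
    have hs0 : 0 ≤ s := by linarith
    have hs3 : s < i := by linarith
    have hbs : (b : ℤ) = i * J + s := by rw [hs]; ring
    rw [hbs] at hlow
    nlinarith [mul_nonneg hs0 hs0, mul_nonneg hs0 (sub_nonneg.mpr hs3.le),
      mul_nonneg (show (0:ℤ) ≤ i by linarith) (show (0:ℤ) ≤ J by linarith)]
  have hpos : (0 : ℤ) < (i : ℤ) * (J + 1) := by positivity
  have key2 := le_of_mul_le_mul_left key hpos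
  have : ((i * (J - 1) : ℕ) : ℤ) ≤ ((r * J : ℕ) : ℤ) := by
    push_cast [Nat.cast_sub hJpos]
    exact key2
  exact_mod_cast this

/-- growth lemma -/
theorem growth (B X : Finset (ZMod p)) (hodd : Odd p) (h0 : 0 ∈ X) (i r b : ℕ)
    (hb : b = min B.card (p - B.card))
    (hi : 1 ≤ i) (hX : 2 * i + 1 ≤ X.card) (hr : ∀ x ∈ X, lam B x ≤ r) :
    i * (b / i - 1) ≤ r * (b / i) := by
  have hBp : B.card ≤ p := by
    have := card_le_univ B
    rwa [ZMod.card] at this
  rcases Nat.lt_or_ge (2 * B.card) p with h | h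
  · have : b = B.card := by rw [hb]; omega
    rw [this]
    exact growth_small B X h h0 i r hi hX hr
  · have hne : 2 * B.card ≠ p := by
      intro h'
      rw [← h'] at hodd
      exact (Nat.not_odd_iff_even.mpr (even_two_mul _)) hodd
    have hc : (Bᶜ).card = p - B.card := by rw [card_compl, ZMod.card]
    have : b = (Bᶜ).card := by rw [hb, hc]; omega
    rw [this]
    apply growth_small Bᶜ X (by rw [hc]; omega) h0 i r hi hX
    intro x hx
    rw [lam_compl]
    exact hr x hx

end Pool.Agent.Helper774.SS
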